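import Pool.Agent.Work.MP_ae9a8c_lc.SD.NipSD
import Pool.Agent.Work.MP_ae9a8c_lc.DfnPsi
import Pool.Agent.Work.MP_ae9a8c_lc.FI.Defs

/-!
In a strongly dependent field (and its finite extensions) the `q`-th powers have finite index for all
but finitely many primes `q`.
-/

set_option autoImplicit false

namespace Pool.Agent.Work.MP_ae9a8c_lc.SD

open Pool.Agent.Work.MP_ae9a8c_lc.FI

/-- The relation `x = y w^q` on a finite extension is definable. -/
theorem dfn_coset {K : Type} [Field K] (O : ValuationSubring K) {L : Type} [Field L] [Algebra K L]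
    {m : ℕ} (e : Module.Basis (Fin m) K L) (q : ℕ) :
    Dfn O {v : Fin m ⊕ Fin m → K | ∃ w : L,
      (∑ j, v (Sum.inl j) • e j) = (∑ j, v (Sum.inr j) • e j) * w ^ q} := by
  let α := (Fin m ⊕ Fin m) ⊕ Fin m
  let lc : (Fin m → α) → MvPolynomial α L := fun r => ∑ j, MvPolynomial.C (e j) * MvPolynomial.X (r j)
  have hlc : ∀ (r : Fin m → α) (w : α → K),
      MvPolynomial.aeval (fun i => algebraMap K L (w i)) (lc r) = ∑ j, w (r j) • e j := by
    intro r w
    simp only [lc, map_sum, map_mul, MvPolynomial.aeval_X, MvPolynomial.aeval_C,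
      Algebra.algebraMap_self, RingHom.id_apply]
    refine Finset.sum_congr rfl fun j _ => ?_
    rw [Algebra.smul_def, mul_comm]
  have h1 := dfn_ex O (dfn_L O e (α := α)
    (lc (fun j => Sum.inl (Sum.inl j)) - lc (fun j => Sum.inl (Sum.inr j)) *
      lc (fun j => Sum.inr j) ^ q))
  have h2 : {v : Fin m ⊕ Fin m → K | ∃ u : Fin m → K, Sum.elim v u ∈
      {v : α → K | MvPolynomial.aeval (fun i => algebraMap K L (v i))
        (lc (fun j => Sum.inl (Sum.inl j)) - lc (fun j => Sum.inl (Sum.inr j)) *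
          lc (fun j => Sum.inr j) ^ q) = 0}} =
      {v : Fin m ⊕ Fin m → K | ∃ w : L,
        (∑ j, v (Sum.inl j) • e j) = (∑ j, v (Sum.inr j) • e j) * w ^ q} := by
    ext v
    simp only [Set.mem_setOf_eq, map_sub, map_mul, map_pow, hlc, Sum.elim_inl, Sum.elim_inr]
    constructor
    · rintro ⟨u, hu⟩
      exact ⟨∑ j, u j • e j, sub_eq_zero.1 hu⟩
    · rintro ⟨w, hw⟩
      refine ⟨e.repr w, ?_⟩
      change (∑ j, v (Sum.inl j) • e j) -
        (∑ j, v (Sum.inr j) • e j) * (∑ j, e.repr w j • e j) ^ q = 0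
      rw [e.sum_repr w]
      exact sub_eq_zero.2 hw
  rw [h2] at h1
  exact h1

/-- Infinitely many classes give arbitrarily many inequivalent elements. -/
theorem many_classes {L : Type} [Field L] {q : ℕ} (hq : 0 < q) (h : ¬ FinPow L q) (n : ℕ) :
    ∃ t : Fin n → L, (∀ j, t j ≠ 0) ∧ ∀ j j' : Fin n, (∃ w : L, t j = t j' * w ^ q) → j = j' := by
  classical
  have h' : ∀ T : Finset L, ∃ u : L, u ≠ 0 ∧ ∀ t ∈ T, ∀ w : L, u ≠ t * w ^ q := by
    intro T
    by_contra hT
    refine h ⟨T, fun u hu => ?_⟩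
    by_contra hu'
    refine hT ⟨u, hu, fun t ht w hw => hu' ⟨t, ht, w, hw⟩⟩
  choose g hg0 hg using h'
  have key : ∀ n : ℕ, ∃ t : Fin n → L, (∀ j, t j ≠ 0) ∧
      ∀ j j' : Fin n, j' < j → ∀ w : L, t j ≠ t j' * w ^ q := by
    intro n
    induction n with
    | zero => exact ⟨fun i => i.elim0, fun i => i.elim0, fun i => i.elim0⟩
    | succ n ih =>
      obtain ⟨t, ht0, ht⟩ := ih
      refine ⟨Fin.snoc t (g (Finset.univ.image t)), ?_, ?_⟩
      · intro j
        refine Fin.lastCases ?_ (fun i => ?_) j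
        · rw [Fin.snoc_last]
          exact hg0 _
        · rw [Fin.snoc_castSucc]
          exact ht0 i
      · intro j
        refine Fin.lastCases ?_ (fun i => ?_) j
        · intro j'
          refine Fin.lastCases ?_ (fun i' => ?_) j'
          · intro hlt
            exact absurd hlt (lt_irrefl _)
          · intro _ w
            rw [Fin.snoc_last, Fin.snoc_castSucc]
            exact hg _ _ (Finset.mem_image_of_mem _ (Finset.mem_univ i')) w
        · intro j'
          refine Fin.lastCases ?_ (fun i' => ?_) j'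
          · intro hlt
            exact absurd hlt (not_lt.2 (Fin.le_last _))
          · intro hlt w
            rw [Fin.snoc_castSucc, Fin.snoc_castSucc]
            exact ht i i' (Fin.castSucc_lt_castSucc_iff.1 hlt) w
  obtain ⟨t, ht0, ht⟩ := key n
  refine ⟨t, ht0, fun j j' ⟨w, hw⟩ => ?_⟩
  rcases lt_trichotomy j j' with hlt | heq | hgt
  · exfalso
    have hw0 : w ≠ 0 := by
      rintro rfl
      rw [zero_pow hq.ne', mul_zero] at hw
      exact ht0 j hw
    refine ht j' j hlt w⁻¹ ?_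
    rw [hw, inv_pow, mul_assoc, mul_inv_cancel₀ (pow_ne_zero _ hw0), mul_one]
  · exact heq
  · exact absurd hw (ht j j' hgt w)

/-- Chinese remainder exponents. -/
theorem crt_exp {n : ℕ} (q : Fin n → ℕ) (hq : ∀ i, (q i).Prime) (hinj : Function.Injective q)
    (i : Fin n) : ∃ e : ℕ, (∃ c, e = 1 + q i * c) ∧ ∀ i', i' ≠ i → q i' ∣ e := by
  classical
  have hco : Nat.Coprime (q i) (∏ i' ∈ Finset.univ.erase i, q i') := by
    refine Nat.Coprime.prod_right fun i' hi' => ?_
    rw [Nat.coprime_primes (hq i) (hq i')]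
    intro he
    exact (Finset.ne_of_mem_erase hi') (hinj he).symm
  obtain ⟨e, he1, he2⟩ := Nat.chineseRemainder hco 1 0
  refine ⟨e + q i * (∏ i' ∈ Finset.univ.erase i, q i'), ?_, ?_⟩
  · have h1 : 1 ≤ e + q i * (∏ i' ∈ Finset.univ.erase i, q i') := by
      have h2 : 0 < q i * (∏ i' ∈ Finset.univ.erase i, q i') :=
        Nat.mul_pos (hq i).pos (Finset.prod_pos fun i' _ => (hq i').pos)
      omega
    have h2 : e + q i * (∏ i' ∈ Finset.univ.erase i, q i') ≡ 1 [MOD q i] := by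
      have h3 : q i * (∏ i' ∈ Finset.univ.erase i, q i') ≡ 0 [MOD q i] :=
        (Nat.modEq_zero_iff_dvd).2 (Dvd.intro _ rfl)
      exact Nat.ModEq.add he1 h3
    obtain ⟨c, hc⟩ := (Nat.modEq_iff_dvd' h1).1 h2.symm
    exact ⟨c, by omega⟩
  · intro i' hi'
    refine Nat.dvd_add ?_ ?_
    · exact (Finset.dvd_prod_of_mem q (Finset.mem_erase.2 ⟨hi', Finset.mem_univ _⟩)).trans
        ((Nat.modEq_zero_iff_dvd).1 he2)
    · exact Dvd.dvd.mul_left
        (Finset.dvd_prod_of_mem q (Finset.mem_erase.2 ⟨hi', Finset.mem_univ _⟩)) _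

theorem strDep_finPow {K : Type} [Field K] (O : ValuationSubring K) (h : StrDep K O)
    (L : Type) [Field L] [Algebra K L] [FiniteDimensional K L] :
    {q : ℕ | q.Prime ∧ ¬ FinPow L q}.Finite := by
  classical
  by_contra hinf
  have hinf' : {q : ℕ | q.Prime ∧ ¬ FinPow L q}.Infinite := hinf
  obtain ⟨Q, hQ⟩ : ∃ Q : ℕ ↪ ℕ, ∀ i, (Q i).Prime ∧ ¬ FinPow L (Q i) :=
    ⟨hinf'.natEmbedding.trans (Function.Embedding.subtype _), fun i => (hinf'.natEmbedding _ i).2⟩
  let m := Module.finrank K L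
  let e : Module.Basis (Fin m) K L := Module.finBasis K L
  obtain ⟨n, hn⟩ := strDep_dfn O h (m := m) (fun _ => m)
    (fun i => {v : Fin m ⊕ Fin m → K | ∃ w : L,
      (∑ j, v (Sum.inl j) • e j) = (∑ j, v (Sum.inr j) • e j) * w ^ (Q i)})
    (fun i => dfn_coset O e (Q i))
  have ht : ∀ i : Fin n, ∃ t : Fin n → L, (∀ j, t j ≠ 0) ∧
      ∀ j j' : Fin n, (∃ w : L, t j = t j' * w ^ (Q i)) → j = j' :=
    fun i => many_classes (hQ i).1.pos (hQ i).2 n
  choose t ht0 ht using ht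
  choose c hc1 hc2 using crt_exp (fun i : Fin n => Q i) (fun i => (hQ i).1)
    (fun i i' hi => Fin.ext (Q.injective hi))
  refine hn ⟨fun i j => e.repr (t i j), fun η => ?_⟩
  let a : L := ∏ i : Fin n, t i (η i) ^ c i
  have ha0 : a ≠ 0 := Finset.prod_ne_zero_iff.2 fun i _ => pow_ne_zero _ (ht0 i _)
  have ha : ∀ i : Fin n, ∃ w : L, w ≠ 0 ∧ a = t i (η i) * w ^ (Q i) := by
    intro i
    have h1 : ∀ i' : Fin n, i' ≠ i → ∃ w : L, w ≠ 0 ∧ t i' (η i') ^ c i' = w ^ (Q i) := by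
      intro i' hi'
      obtain ⟨d, hd⟩ := hc2 i' i hi'.symm
      exact ⟨t i' (η i') ^ d, pow_ne_zero _ (ht0 i' _), by rw [hd, mul_comm, pow_mul]⟩
    have h1' : ∀ i' : Fin n, ∃ w : L, w ≠ 0 ∧ (i' ≠ i → t i' (η i') ^ c i' = w ^ (Q i)) := by
      intro i'
      by_cases hi : i' = i
      · exact ⟨1, one_ne_zero, fun h => absurd hi h⟩
      · obtain ⟨w, hw0, hw⟩ := h1 i' hi
        exact ⟨w, hw0, fun _ => hw⟩
    choose w hw0 hw using h1'
    obtain ⟨d, hd⟩ := hc1 i
    refine ⟨t i (η i) ^ d * ∏ i' ∈ Finset.univ.erase i, w i', ?_, ?_⟩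
    · exact mul_ne_zero (pow_ne_zero _ (ht0 i _)) (Finset.prod_ne_zero_iff.2 fun i' _ => hw0 i')
    · have h2 : a = t i (η i) ^ c i * ∏ i' ∈ Finset.univ.erase i, t i' (η i') ^ c i' :=
        (Finset.mul_prod_erase Finset.univ _ (Finset.mem_univ i)).symm
      rw [h2, hd, pow_add, pow_one, mul_comm (Q i : ℕ) d, pow_mul, mul_assoc, mul_pow,
        ← Finset.prod_pow]
      congr 2
      exact Finset.prod_congr rfl fun i' hi' => hw i' (Finset.ne_of_mem_erase hi')
  refine ⟨e.repr a, fun i j => ?_⟩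
  simp only [Set.mem_setOf_eq, Sum.elim_inl, Sum.elim_inr]
  rw [e.sum_repr a, e.sum_repr (t i j)]
  obtain ⟨w, hw0, hw⟩ := ha i
  constructor
  · rintro ⟨w', hw'⟩
    have hw'0 : w' ≠ 0 := by
      rintro rfl
      rw [zero_pow (hQ i).1.ne_zero, mul_zero] at hw'
      exact ha0 hw'
    refine ht i j (η i) ⟨w * w'⁻¹, ?_⟩
    rw [mul_pow, ← mul_assoc, ← hw, hw', inv_pow, mul_assoc,
      mul_inv_cancel₀ (pow_ne_zero _ hw'0), mul_one]
  · rintro rfl
    exact ⟨w, hw⟩

end Pool.Agent.Work.MP_ae9a8c_lc.SD
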