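import Pool.Agent.Work.MP_ae9a8c_lc.SD.ResLift
import Pool.Agent.Work.MP_ae9a8c_lc.SD.Pow

/-!
Assembly: strongly dependent valued fields; the equivalence with residual roots of unity.
-/

set_option autoImplicit false

namespace Pool.Agent.Work.MP_ae9a8c_lc.SD

open Pool.Agent.Work.MP_ae9a8c_lc.FI

/-- Strongly dependent valued fields of residue characteristic 0, some finite extension of whose
residue field contains roots of unity of infinitely many prime orders, are henselian. -/
theorem henselian_of_strDep (K : Type) [Field K] (O : ValuationSubring K)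
    (hO : CharZero (IsLocalRing.ResidueField O)) (hS : StrDep K O)
    (k : Type) [Field k] [Algebra (IsLocalRing.ResidueField O) k]
    [FiniteDimensional (IsLocalRing.ResidueField O) k]
    (hk : {q : ℕ | q.Prime ∧ ∃ ζ : k, IsPrimitiveRoot ζ q}.Infinite) :
    HenselianLocalRing O := by
  classical
  have hchO : CharZero O := (IsLocalRing.residue O).charZero
  have hchK : CharZero K := charZero_of_injective_algebraMap (R := O) (A := K)
    (IsFractionRing.injective O K)
  refine henselian_of_finPrU2 K O hO (nip_of_strDep O hS) fun L hL => ?_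
  obtain ⟨L', hLL, hL', hres⟩ := res_lift O hO k L hL
  have hfin := strDep_finPow O hS L'
  obtain ⟨q, ⟨hq, ζ, hζ⟩, hq2⟩ := (hk.diff hfin).nonempty
  have hpow : FinPow L' q := by
    by_contra h
    exact hq2 ⟨hq, h⟩
  refine ⟨L', hLL, hL', q, hq, ?_, finPrU_of_finPow O hq hpow⟩
  obtain ⟨M, hM⟩ := Ideal.exists_maximal (integralClosure O L')
  obtain ⟨f, hf⟩ := hres M hM
  exact ⟨M, hM, f ζ, hζ.map_of_injective hf⟩

/-- A primitive `q`-th root of unity in `L` gives one in every residue field. -/
theorem resRoot_of_root {K L : Type} [Field K] (O : ValuationSubring K)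
    (hO : CharZero (IsLocalRing.ResidueField O)) [Field L] [Algebra K L] {q : ℕ} (hq : q.Prime)
    (hζ : ∃ ζ : L, IsPrimitiveRoot ζ q) : ResRoot O L q := by
  classical
  obtain ⟨ζ, hζ⟩ := hζ
  have hint : IsIntegral O ζ := by
    refine IsIntegral.of_pow hq.pos ?_
    rw [hζ.pow_eq_one]
    exact isIntegral_one
  have hζ' : IsPrimitiveRoot (⟨ζ, hint⟩ : integralClosure O L) q :=
    IsPrimitiveRoot.of_map_of_injective (f := algebraMap (integralClosure O L) L) hζ
      Subtype.val_injective
  obtain ⟨M, hM⟩ := Ideal.exists_maximal (integralClosure O L)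
  refine ⟨M, hM, Ideal.Quotient.mk M ⟨ζ, hint⟩, ?_⟩
  have hp : Fact q.Prime := ⟨hq⟩
  have h1 : (Ideal.Quotient.mk M ⟨ζ, hint⟩) ^ q = 1 := by
    rw [← map_pow, hζ'.pow_eq_one, map_one]
  have h2 : Ideal.Quotient.mk M ⟨ζ, hint⟩ ≠ 1 := by
    intro h
    have h3 : ∑ i ∈ Finset.range q, (⟨ζ, hint⟩ : integralClosure O L) ^ i = 0 :=
      hζ'.geom_sum_eq_zero hq.one_lt
    have h4 := congrArg (Ideal.Quotient.mk M) h3
    rw [map_sum, map_zero] at h4
    have h5 : ∀ i ∈ Finset.range q,
        (Ideal.Quotient.mk M) ((⟨ζ, hint⟩ : integralClosure O L) ^ i) = 1 := by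
      intro i _
      rw [map_pow, h, one_pow]
    rw [Finset.sum_congr rfl h5] at h4
    simp only [Finset.sum_const, Finset.card_range, nsmul_eq_mul, mul_one] at h4
    have h6 : IsUnit (q : O) := by
      by_contra h
      have h2 : (q : O) ∈ IsLocalRing.maximalIdeal O := (IsLocalRing.mem_maximalIdeal _).2 h
      have h3 : IsLocalRing.residue O (q : O) = 0 := (IsLocalRing.residue_eq_zero_iff _).2 h2
      rw [map_natCast] at h3
      exact hq.ne_zero (Nat.cast_eq_zero.1 h3)
    have h7 := (h6.map (algebraMap O (integralClosure O L))).map (Ideal.Quotient.mk M)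
    rw [map_natCast, map_natCast, h4] at h7
    have hfield : Nontrivial (integralClosure O L ⧸ M) :=
      Ideal.Quotient.nontrivial_iff.2 hM.ne_top
    exact not_isUnit_zero h7
  rw [← orderOf_eq_prime h1 h2]
  exact IsPrimitiveRoot.orderOf _

/-- The equivalences, residue field form. -/
theorem henselian_tfae2 (K : Type) [Field K] (O : ValuationSubring K)
    (hO : CharZero (IsLocalRing.ResidueField O)) (hN : NIP K O) :
    (HenselianLocalRing O ↔ ∀ L : IntermediateField K (AlgebraicClosure K),
      FiniteDimensional K L → ∃ L' : IntermediateField K (AlgebraicClosure K), L ≤ L' ∧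
        FiniteDimensional K L' ∧ ∃ q : ℕ, q.Prime ∧ ResRoot O L' q ∧
          (FinPow L' q ∨ FinPrU O L' q)) ∧
    (HenselianLocalRing O ↔ ∀ L : IntermediateField K (AlgebraicClosure K),
      FiniteDimensional K L → ∀ q : ℕ, q.Prime → ∀ u : L, PrU O u →
        ∃ w : L, PrU O w ∧ u = w ^ q) := by
  classical
  have hchO : CharZero O := (IsLocalRing.residue O).charZero
  have hchK : CharZero K := charZero_of_injective_algebraMap (R := O) (A := K)
    (IsFractionRing.injective O K)
  refine ⟨⟨fun hH L hL => ?_, fun h => henselian_of_finPrU2 K O hO hN fun L hL => ?_⟩,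
    (henselian_tfae K O hO hN).2⟩
  · obtain ⟨L', hLL, hL', q, hq, hζ, hf⟩ := (henselian_tfae K O hO hN).1.1 hH L hL
    exact ⟨L', hLL, hL', q, hq, resRoot_of_root O hO hq hζ, hf⟩
  · obtain ⟨L', hLL, hL', q, hq, hζ, hf⟩ := h L hL
    exact ⟨L', hLL, hL', q, hq, hζ, hf.elim (finPrU_of_finPow O hq) id⟩

end Pool.Agent.Work.MP_ae9a8c_lc.SD
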