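import Mathlib

/-!
Roots of unity in residue fields.
-/

set_option autoImplicit false

namespace Pool.Agent.Work.MP_ae9a8c_lc.SD

/-- Some residue field of `L` over `O` (the quotient of the integral closure of `O` in `L` by a maximal
ideal) contains a primitive `q`-th root of unity. -/
def ResRoot {K : Type} [Field K] (O : ValuationSubring K) (L : Type) [Field L] [Algebra K L]
    (q : ℕ) : Prop :=
  ∃ M : Ideal (integralClosure O L), M.IsMaximal ∧
    ∃ z : integralClosure O L ⧸ M, IsPrimitiveRoot z q

end Pool.Agent.Work.MP_ae9a8c_lc.SD
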