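import Pool.Agent.Work.MP_ae9a8c_lc.FI.Defs
import Pool.Agent.Work.MP_ae9a8c_lc.FI.Cyc

/-!
The unit `y` when only a residue field contains a primitive `q`-th root of unity.
-/

set_option autoImplicit false

namespace Pool.Agent.Work.MP_ae9a8c_lc.SD

open Pool.Agent.Work.MP_ae9a8c_lc.FI

private theorem yel_unit {B : Type} [CommRing B] {u : B}
    (h : ∀ M : Ideal B, M.IsMaximal → u ∉ M) : IsUnit u := by
  by_contra hu
  obtain ⟨M, hM, hm⟩ := exists_max_ideal_of_mem_nonunits (show u ∈ nonunits B from hu)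
  exact h M hM hm

private theorem yel_nat {B : Type} [CommRing B] (hnat : ∀ n : ℕ, n ≠ 0 → IsUnit (n : B))
    (M : Ideal B) (hM : M.IsMaximal) (n : ℕ) (hn : n ≠ 0) : ((n : ℕ) : B ⧸ M) ≠ 0 := by
  intro h
  have h1 : (Ideal.Quotient.mk M) (n : B) = 0 := by
    rw [map_natCast]
    exact h
  rw [Ideal.Quotient.eq_zero_iff_mem] at h1
  exact hM.ne_top (Ideal.eq_top_of_isUnit_mem M h1 (hnat n hn))

theorem exists_y2 {B : Type} [CommRing B] [IsDomain B] (hnat : ∀ n : ℕ, n ≠ 0 → IsUnit (n : B))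
    (hfin : {M : Ideal B | M.IsMaximal}.Finite) {q : ℕ} (hq : q.Prime)
    (M₁ M₂ : Ideal B) (h1 : M₁.IsMaximal) (h2 : M₂.IsMaximal)
    (hne : M₂ ≠ M₁) {ζ : B} (hζ : IsPrimitiveRoot (Ideal.Quotient.mk M₁ ζ) q) :
    ∃ y : B, IsUnit y ∧ PU (y ^ q) ∧ (∀ w : B, PU w → w ^ q ≠ y ^ q) ∧
      ∀ j : ℕ, 1 ≤ j → j < q → IsUnit (y + y ^ j - y ^ (j + 1)) := by
  classical
  have hp : Fact q.Prime := ⟨hq⟩
  have : Finite {M : Ideal B // M.IsMaximal} := hfin
  have hcop : Pairwise (Function.onFun IsCoprime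
      (fun M : {M : Ideal B // M.IsMaximal} => M.1)) := by
    intro M M' hMM
    rw [Function.onFun, Ideal.isCoprime_iff_sup_eq]
    exact Ideal.IsMaximal.coprime_of_ne M.2 M'.2 fun h => hMM (Subtype.ext h)
  obtain ⟨y, hy⟩ := Ideal.exists_forall_sub_mem_ideal hcop
    (fun M => if M.1 = M₁ then ζ else 1)
  have hy1 : Ideal.Quotient.mk M₁ y = Ideal.Quotient.mk M₁ ζ := by
    have h := hy ⟨M₁, h1⟩
    rw [if_pos rfl] at h
    exact Ideal.Quotient.eq.2 h
  have hy2 : ∀ M : Ideal B, M.IsMaximal → M ≠ M₁ → Ideal.Quotient.mk M y = 1 := by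
    intro M hM hMne
    have h := hy ⟨M, hM⟩
    rw [if_neg hMne] at h
    rw [← map_one (Ideal.Quotient.mk M)]
    exact Ideal.Quotient.eq.2 h
  have hyq : ∀ M : Ideal B, M.IsMaximal → (Ideal.Quotient.mk M y) ^ q = 1 := by
    intro M hM
    by_cases h : M = M₁
    · subst h
      rw [hy1]
      exact hζ.pow_eq_one
    · rw [hy2 M hM h, one_pow]
  have hyu : IsUnit y := by
    apply yel_unit
    intro M hM hm
    have h3 := hyq M hM
    rw [Ideal.Quotient.eq_zero_iff_mem.2 hm, zero_pow hq.ne_zero] at h3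
    have hfield : Nontrivial (B ⧸ M) := Ideal.Quotient.nontrivial_iff.2 hM.ne_top
    exact zero_ne_one h3
  have hpu : ∀ u : B, PU u ↔ ∀ M : Ideal B, M.IsMaximal → Ideal.Quotient.mk M u = 1 := by
    intro u
    unfold PU Ideal.jacobson
    rw [Ideal.mem_sInf]
    constructor
    · intro h M hM
      rw [← map_one (Ideal.Quotient.mk M)]
      exact Ideal.Quotient.eq.2 (h ⟨bot_le, hM⟩)
    · intro h M hM
      have h3 := h M hM.2
      rw [← map_one (Ideal.Quotient.mk M)] at h3
      exact Ideal.Quotient.eq.1 h3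
  refine ⟨y, hyu, ?_, ?_, ?_⟩
  · rw [hpu]
    intro M hM
    rw [map_pow]
    exact hyq M hM
  · intro w hw hwq
    rw [hpu] at hw
    have hwu : IsUnit w := by
      apply yel_unit
      intro M hM hm
      have h3 := hw M hM
      rw [Ideal.Quotient.eq_zero_iff_mem.2 hm] at h3
      have hfield : Nontrivial (B ⧸ M) := Ideal.Quotient.nontrivial_iff.2 hM.ne_top
      exact zero_ne_one h3
    obtain ⟨w', hw'⟩ := hwu.exists_right_inv
    have h3 : (y * w') ^ q = 1 := by
      rw [mul_pow, ← hwq, ← mul_pow, hw', one_pow]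
    -- modulo `M₂` the root of unity `y w'` is `1`, so it is `1`
    have h4 : (∑ i ∈ Finset.range q, (y * w') ^ i) * (y * w' - 1) = 0 := by
      rw [geom_sum_mul, h3, sub_self]
    have h5 : Ideal.Quotient.mk M₂ (y * w') = 1 := by
      have h6 := congrArg (Ideal.Quotient.mk M₂) hw'
      rw [map_mul, hw M₂ h2, one_mul, map_one] at h6
      rw [map_mul, hy2 M₂ h2 hne, one_mul, h6]
    have h6 : ∑ i ∈ Finset.range q, (y * w') ^ i ≠ 0 := by
      intro h7
      have h8 := congrArg (Ideal.Quotient.mk M₂) h7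
      rw [map_sum, map_zero] at h8
      have h9 : ∀ i ∈ Finset.range q, (Ideal.Quotient.mk M₂) ((y * w') ^ i) = 1 := by
        intro i _
        rw [map_pow, h5, one_pow]
      rw [Finset.sum_congr rfl h9] at h8
      simp only [Finset.sum_const, Finset.card_range, nsmul_eq_mul, mul_one] at h8
      exact yel_nat hnat M₂ h2 q hq.ne_zero h8
    have h7 : y * w' = 1 := sub_eq_zero.1 ((mul_eq_zero.1 h4).resolve_left h6)
    have h8 : y = w := by
      calc y = y * (w * w') := by rw [hw', mul_one]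
        _ = (y * w') * w := by ring
        _ = w := by rw [h7, one_mul]
    have h9 := hw M₁ h1
    rw [← h8, hy1] at h9
    exact hζ.ne_one hq.one_lt h9
  · intro j hj hj2
    apply yel_unit
    intro M hM hm
    have h3 := Ideal.Quotient.eq_zero_iff_mem.2 hm
    rw [map_sub, map_add, map_pow, map_pow] at h3
    by_cases h : M = M₁
    · subst h
      rw [hy1] at h3
      let := Ideal.Quotient.field M
      have hc : CharZero (B ⧸ M) := by
        refine charZero_of_inj_zero fun n hn => ?_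
        by_contra hn0
        exact yel_nat hnat M hM n hn0 hn
      exact cyc_ne hq hζ hj hj2 h3
    · rw [hy2 M hM h, one_pow, one_pow] at h3
      have hfield : Nontrivial (B ⧸ M) := Ideal.Quotient.nontrivial_iff.2 hM.ne_top
      rw [add_sub_cancel_right] at h3
      exact one_ne_zero h3

end Pool.Agent.Work.MP_ae9a8c_lc.SD
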