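import Pool.Agent.Work.MP_ae9a8c_lc.FI.Main
import Pool.Agent.Work.MP_ae9a8c_lc.SD.Yel2
import Pool.Agent.Work.MP_ae9a8c_lc.SD.RDef

/-!
The main theorem with the `q`-th root of unity in a residue field only.
-/

set_option autoImplicit false

namespace Pool.Agent.Work.MP_ae9a8c_lc.SD

open Pool.Agent.Work.MP_ae9a8c_lc.FI

/-- Principal units: `1 - c (s + d)` with `s`, `d` in the Jacobson radical. -/
private theorem pu_one_sub {B : Type} [CommRing B] (c : B) {x : B}
    (hx : x ∈ Ideal.jacobson (⊥ : Ideal B)) : PU (1 - c * x) := by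
  unfold PU
  have : 1 - c * x - 1 = -(c * x) := by ring
  rw [this]
  exact (Ideal.jacobson (⊥ : Ideal B)).neg_mem (Ideal.mul_mem_left _ _ hx)

theorem no_two_max2 {K L : Type} [Field K] (O : ValuationSubring K)
    (hO : CharZero (IsLocalRing.ResidueField O)) (hN : NIP K O) [Field L] [Algebra K L]
    [FiniteDimensional K L] {q : ℕ} (hq : q.Prime) (hζ : ResRoot O L q)
    (hfin : FinPrU O L q) (h2 : TwoMax O L) : False := by
  classical
  have hchO : CharZero O := (IsLocalRing.residue O).charZero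
  have hchK : CharZero K := charZero_of_injective_algebraMap (R := O) (A := K)
    (IsFractionRing.injective O K)
  obtain ⟨M₁, hM₁, z, hz⟩ := hζ
  obtain ⟨M₂, hM₂, hne⟩ : ∃ M₂ : Ideal (integralClosure O L), M₂.IsMaximal ∧ M₂ ≠ M₁ := by
    obtain ⟨A, A', hA, hA', hAA⟩ := h2
    by_cases h : A = M₁
    · exact ⟨A', hA', fun h' => hAA (h'.trans h.symm)⟩
    · exact ⟨A, hA, h⟩
  obtain ⟨ζ, rfl⟩ := Ideal.Quotient.mk_surjective z
  have hnat : ∀ n : ℕ, n ≠ 0 → IsUnit (n : integralClosure O L) := by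
    intro n hn
    have h1 : IsUnit (n : O) := by
      by_contra h
      have h2 : (n : O) ∈ IsLocalRing.maximalIdeal O := (IsLocalRing.mem_maximalIdeal _).2 h
      have h3 : IsLocalRing.residue O (n : O) = 0 := (IsLocalRing.residue_eq_zero_iff _).2 h2
      rw [map_natCast] at h3
      exact hn (Nat.cast_eq_zero.1 h3)
    have h2 := h1.map (algebraMap O (integralClosure O L))
    rwa [map_natCast] at h2
  obtain ⟨y, hyu, hyq, hyw, hyj⟩ := exists_y2 hnat (fin_max O) hq M₁ M₂ hM₁ hM₂ hne hz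
  obtain ⟨F, hmul, hFy, hS⟩ := exists_hom hq (y ^ q) hyq hyw (finPrU_conv O hfin)
  have hcore : Core (integralClosure O L) q F y :=
    { qp := hq, nat := hnat, mul := hmul, yu := hyu, yq := hyq, Fy := hFy, un := hyj }
  refine contra hcore ?_
  intro t
  obtain ⟨S, hS1, hS2⟩ := hS t
  obtain ⟨N, hNN⟩ := nip_pw O hN q (S.image fun s : integralClosure O L => (s : L))
  refine ⟨N, fun ⟨s, hs, hA⟩ => hNN ⟨fun i => (s i : L), fun A => ?_⟩⟩
  obtain ⟨c, d, hd, hcd⟩ := hA A
  refine ⟨(c : L), (d : L), fun i => ?_⟩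
  rw [← hcd i, hS2 _ (pu_one_sub c ((Ideal.jacobson (⊥ : Ideal (integralClosure O L))).add_mem
    (hs i) hd))]
  constructor
  · rintro ⟨ρ, hρ, w, hw, he⟩
    rw [Finset.mem_image] at hρ
    obtain ⟨r, hr, rfl⟩ := hρ
    obtain ⟨w', rfl, hw'⟩ := (prU_iff O w).1 hw
    refine ⟨r, hr, w', hw', ?_⟩
    apply Subtype.val_injective
    push_cast
    exact he
  · rintro ⟨r, hr, w', hw', he⟩
    refine ⟨(r : L), Finset.mem_image_of_mem _ hr, (w' : L), (prU_iff O _).2 ⟨w', rfl, hw'⟩, ?_⟩
    have := congrArg (Subtype.val) he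
    push_cast at this
    exact this

/-- Main theorem, residue field form. -/
theorem henselian_of_finPrU2 (K : Type) [Field K] (O : ValuationSubring K)
    (hO : CharZero (IsLocalRing.ResidueField O)) (hN : NIP K O)
    (h : ∀ L : IntermediateField K (AlgebraicClosure K), FiniteDimensional K L →
      ∃ L' : IntermediateField K (AlgebraicClosure K), L ≤ L' ∧ FiniteDimensional K L' ∧
        ∃ q : ℕ, q.Prime ∧ ResRoot O L' q ∧ FinPrU O L' q) :
    HenselianLocalRing O := by
  by_contra hnot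
  obtain ⟨L, hL, h2⟩ := exists_two_max O hO hnot
  obtain ⟨L', hLL, hL', q, hq, hζ, hf⟩ := h L hL
  exact no_two_max2 O hO hN hq hζ hf (two_up O (IntermediateField.inclusion hLL) h2)

end Pool.Agent.Work.MP_ae9a8c_lc.SD
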