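import Pool.Agent.Work.MP_ae9a8c_lc.SD.SDef

/-!
Strong dependence implies NIP, and passes to sets definable with parameters.
-/

set_option autoImplicit false

namespace Pool.Agent.Work.MP_ae9a8c_lc.SD

theorem nip_of_strDep {K : Type} [Field K] (O : ValuationSubring K) (h : StrDep K O) :
    NIP K O := by
  classical
  intro m k φ
  obtain ⟨n, hn⟩ := h k (fun _ => m) (fun _ => φ.relabel Sum.swap)
  refine ⟨n * n, fun ⟨a, ha⟩ => hn ⟨fun i j => a (finProdFinEquiv (i, j)), fun η => ?_⟩⟩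
  obtain ⟨b, hb⟩ := ha {p | (finProdFinEquiv.symm p).2 = η (finProdFinEquiv.symm p).1}
  refine ⟨b, fun i j => ?_⟩
  have h1 := hb (finProdFinEquiv (i, j))
  simp only [Set.mem_setOf_eq, Equiv.symm_apply_apply] at h1
  rw [← h1]
  letI := st O
  have h2 : (Sum.elim b (a (finProdFinEquiv (i, j)))) ∘ Sum.swap =
      Sum.elim (a (finProdFinEquiv (i, j))) b := by
    funext y
    rcases y with y | y <;> rfl
  have h3 := FirstOrder.Language.Formula.realize_relabel (L := Lg) (φ := φ) (g := Sum.swap)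
    (v := Sum.elim b (a (finProdFinEquiv (i, j))))
  rw [h2] at h3
  exact h3

theorem strDep_dfn {K : Type} [Field K] (O : ValuationSubring K) (h : StrDep K O) {m : ℕ}
    (k : ℕ → ℕ) (s : (i : ℕ) → Set (Fin m ⊕ Fin (k i) → K)) (hs : ∀ i, Dfn O (s i)) :
    ∃ n : ℕ, ¬ ∃ b : (i : Fin n) → Fin n → Fin (k i) → K, ∀ η : Fin n → Fin n,
      ∃ a : Fin m → K, ∀ i j : Fin n, Sum.elim a (b i j) ∈ s i ↔ j = η i := by
  classical
  letI := st O
  have key : ∀ i, ∃ (c : ℕ) (φ : Lg.Formula (Fin m ⊕ Fin (k i + c))) (p : Fin c → K),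
      ∀ (a : Fin m → K) (x : Fin (k i) → K),
        φ.Realize (Sum.elim a (Fin.append x p)) ↔ Sum.elim a x ∈ s i := by
    intro i
    have hs' : (Set.univ : Set K).Definable Lg (s i) := hs i
    rw [Set.definable_iff_finitely_definable] at hs'
    obtain ⟨A0, _, hA0⟩ := hs'
    rw [Set.definable_iff_exists_formula_sum] at hA0
    obtain ⟨φ, hφ⟩ := hA0
    let ρ : ((A0 : Set K) : Type) ⊕ (Fin m ⊕ Fin (k i)) → Fin m ⊕ Fin (k i + A0.card) :=
      Sum.elim (fun a => Sum.inr (Fin.natAdd (k i) (A0.equivFin a)))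
        (Sum.elim Sum.inl (fun j => Sum.inr (Fin.castAdd A0.card j)))
    refine ⟨A0.card, φ.relabel ρ, fun j => ((A0.equivFin.symm j : A0) : K), fun a x => ?_⟩
    have h1 : (Sum.elim a (Fin.append x (fun j => ((A0.equivFin.symm j : A0) : K)))) ∘ ρ =
        Sum.elim (fun y : ((A0 : Set K) : Type) => (y : K)) (Sum.elim a x) := by
      funext y
      rcases y with y | y | y
      · simp only [ρ, Function.comp_apply, Sum.elim_inl, Sum.elim_inr, Fin.append_right,
          Equiv.symm_apply_apply]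
      · rfl
      · simp only [ρ, Function.comp_apply, Sum.elim_inl, Sum.elim_inr, Fin.append_left]
    have h2 : Sum.elim a x ∈ s i ↔ φ.Realize (Sum.elim (↑) (Sum.elim a x)) := by
      rw [hφ]
      rfl
    rw [h2, ← h1]
    exact FirstOrder.Language.Formula.realize_relabel
  choose c φ p hp using key
  obtain ⟨n, hn⟩ := h m (fun i => k i + c i) φ
  refine ⟨n, fun ⟨b, hb⟩ => hn ⟨fun i j => Fin.append (b i j) (p i), fun η => ?_⟩⟩
  obtain ⟨a, ha⟩ := hb η
  exact ⟨a, fun i j => (hp i a (b i j)).trans (ha i j)⟩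

end Pool.Agent.Work.MP_ae9a8c_lc.SD
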