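import Pool.Agent.Work.MP_ae9a8c_lc.SD.Main2

/-!
A finite extension of the residue field embeds in all residue fields of a suitable finite extension.
-/

set_option autoImplicit false

namespace Pool.Agent.Work.MP_ae9a8c_lc.SD

open Pool.Agent.Work.MP_ae9a8c_lc.FI Polynomial

theorem res_lift {K : Type} [Field K] (O : ValuationSubring K)
    (hO : CharZero (IsLocalRing.ResidueField O))
    (k : Type) [Field k] [Algebra (IsLocalRing.ResidueField O) k]
    [FiniteDimensional (IsLocalRing.ResidueField O) k]
    (L : IntermediateField K (AlgebraicClosure K)) (hL : FiniteDimensional K L) :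
    ∃ L' : IntermediateField K (AlgebraicClosure K), L ≤ L' ∧ FiniteDimensional K L' ∧
      ∀ M : Ideal (integralClosure O L'), M.IsMaximal →
        ∃ f : k →+* (integralClosure O L' ⧸ M), Function.Injective f := by
  classical
  let κ := IsLocalRing.ResidueField O
  have hchO : CharZero O := (IsLocalRing.residue O).charZero
  have hchK : CharZero K := charZero_of_injective_algebraMap (R := O) (A := K)
    (IsFractionRing.injective O K)
  let pb : PowerBasis κ k := Field.powerBasisOfFiniteOfSeparable κ k
  let g : κ[X] := minpoly κ pb.gen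
  have hgm : g.Monic := minpoly.monic pb.isIntegral_gen
  obtain ⟨G, hG, hGdeg, hGm⟩ : ∃ G : O[X], G.map (IsLocalRing.residue O) = g ∧
      G.natDegree = g.natDegree ∧ G.Monic := by
    have hl : g ∈ Polynomial.lifts (IsLocalRing.residue O) := by
      rw [Polynomial.mem_lifts]
      exact Polynomial.map_surjective _ IsLocalRing.residue_surjective g
    obtain ⟨G, h1, h2, h3⟩ := Polynomial.lifts_and_natDegree_eq_and_monic hl hgm
    exact ⟨G, h1, h2, h3⟩
  have hdeg : (G.map (algebraMap O (AlgebraicClosure K))).degree ≠ 0 := by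
    rw [hGm.degree_map]
    intro h
    have h1 : G.natDegree = 0 := Polynomial.natDegree_eq_of_degree_eq_some h
    rw [hGdeg] at h1
    exact (minpoly.natDegree_pos pb.isIntegral_gen).ne' h1
  obtain ⟨a, ha⟩ := IsAlgClosed.exists_root _ hdeg
  have ha' : (Polynomial.aeval a) G = 0 := by
    rw [Polynomial.IsRoot.def, Polynomial.eval_map] at ha
    exact ha
  have hai : IsIntegral O a := ⟨G, hGm, ha'⟩
  have haK : IsIntegral K a := hai.tower_top
  have hfd : FiniteDimensional K (IntermediateField.adjoin K {a}) :=
    IntermediateField.adjoin.finiteDimensional haK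
  refine ⟨L ⊔ IntermediateField.adjoin K {a}, le_sup_left,
    IntermediateField.finiteDimensional_sup L _, fun M hM => ?_⟩
  let L' := L ⊔ IntermediateField.adjoin K {a}
  have haL : a ∈ L' := (le_sup_right : IntermediateField.adjoin K {a} ≤ L')
    (IntermediateField.mem_adjoin_simple_self K a)
  let aL : L' := ⟨a, haL⟩
  haveI : IsScalarTower O L' (AlgebraicClosure K) := IsScalarTower.of_algebraMap_eq fun _ => rfl
  have haL0 : (Polynomial.aeval aL) G = 0 := by
    apply Subtype.val_injective (p := fun x => x ∈ L')
    have h1 := Polynomial.aeval_algebraMap_apply (AlgebraicClosure K) aL G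
    have h2 : (algebraMap L' (AlgebraicClosure K)) aL = a := rfl
    rw [h2, ha'] at h1
    exact h1.symm
  let aB : integralClosure O L' := ⟨aL, ⟨G, hGm, haL0⟩⟩
  have haB0 : (Polynomial.aeval aB) G = 0 := by
    apply Subtype.val_injective
    have h1 := Polynomial.aeval_algebraMap_apply L' aB G
    have h2 : (algebraMap (integralClosure O L') L') aB = aL := rfl
    rw [h2, haL0] at h1
    exact h1.symm
  have hfield : Nontrivial (integralClosure O L' ⧸ M) := Ideal.Quotient.nontrivial_iff.2 hM.ne_top
  let ψ : O →+* integralClosure O L' ⧸ M :=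
    (Ideal.Quotient.mk M).comp (algebraMap O (integralClosure O L'))
  have hψ : ∀ x ∈ IsLocalRing.maximalIdeal O, ψ x = 0 := by
    intro x hx
    have h1 : (M.comap (algebraMap O (integralClosure O L'))).IsMaximal :=
      Ideal.isMaximal_comap_of_isIntegral_of_isMaximal M
    have h2 := IsLocalRing.eq_maximalIdeal h1
    rw [← h2] at hx
    exact Ideal.Quotient.eq_zero_iff_mem.2 hx
  let ψ' : κ →+* integralClosure O L' ⧸ M := Ideal.Quotient.lift _ ψ hψ
  have hψ' : ψ'.comp (IsLocalRing.residue O) = ψ := by
    ext x
    rfl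
  letI : Algebra κ (integralClosure O L' ⧸ M) := ψ'.toAlgebra
  have hroot : (Polynomial.aeval (Ideal.Quotient.mk M aB)) (minpoly κ pb.gen) = 0 := by
    change Polynomial.eval₂ ψ' _ g = 0
    rw [← hG, Polynomial.eval₂_map, hψ']
    have h1 : Polynomial.eval₂ ψ (Ideal.Quotient.mk M aB) G =
        Ideal.Quotient.mk M ((Polynomial.aeval aB) G) := by
      rw [Polynomial.aeval_def, Polynomial.hom_eval₂]
    rw [h1, haB0, map_zero]
  let F : k →ₐ[κ] (integralClosure O L' ⧸ M) := pb.lift _ hroot
  exact ⟨F.toRingHom, F.toRingHom.injective⟩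

end Pool.Agent.Work.MP_ae9a8c_lc.SD
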