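import Pool.Agent.Work.MP_ae9a8c_lc.MTDefs

/-!
Strongly dependent valued fields.
-/

set_option autoImplicit false

namespace Pool.Agent.Work.MP_ae9a8c_lc.SD

/-- `(K, O)` is strongly dependent (in the language of the frozen statement `S15215`): no sequence of
formulas `φ_i(x; y_i)`, `i ∈ ℕ`, with a fixed finite tuple `x`, has patterns of every finite depth
`n`, that is parameters `b_(i,j)`, `i, j < n`, such that for every path `η` some `a` satisfies exactly
the formulas `φ_i(x; b_(i,η(i)))` among all `φ_i(x; b_(i,j))`.  (By compactness: `Th(K, O)` has no such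
pattern of infinite depth.) -/
def StrDep (K : Type) [Field K] (O : ValuationSubring K) : Prop :=
  ∀ (m : ℕ) (k : ℕ → ℕ)
    (φ : (i : ℕ) → (FirstOrder.Language.mk (fun _ => Empty)
            (fun n => Fin n × Fin n × Fin n × Fin 3)).Formula (Fin m ⊕ Fin (k i))),
    ∃ n : ℕ, ¬ ∃ b : (i : Fin n) → Fin n → Fin (k i) → K, ∀ η : Fin n → Fin n,
      ∃ a : Fin m → K, ∀ i j : Fin n,
        (@FirstOrder.Language.Formula.Realize
            (FirstOrder.Language.mk (fun _ => Empty)
              (fun n => Fin n × Fin n × Fin n × Fin 3))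
            K
            { funMap := fun f _ => Empty.elim f,
              RelMap := fun r x =>
                if r.2.2.2 = 0 then x r.1 + x r.2.1 = x r.2.2.1
                else if r.2.2.2 = 1 then x r.1 * x r.2.1 = x r.2.2.1
                else x r.1 ∈ O }
            (Fin m ⊕ Fin (k i)) (φ i) (Sum.elim a (b i j)) ↔ j = η i)

end Pool.Agent.Work.MP_ae9a8c_lc.SD
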